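import Pool.Agent.VHF.Main
import Pool.Agent.VHM.TheFam
import Pool.Agent.VHW.Inst

/-!
# VHF/Final : hyperbolicity is undecidable among automatic groups (MP_720b7c_al)
-/

set_option autoImplicit false

namespace Pool.Agent.VHF

/-- there is no algorithm which decides word-hyperbolicity of automatic groups -/
theorem undecidable : ¬ ∃ f : VHG.PresData →. Bool, Partrec f ∧ VHG.DecidesHyp f := by
  obtain ⟨F⟩ := VHM.theFam
  exact undecidable_of VHW.skel F

end Pool.Agent.VHF
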