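import Pool.Agent.VHS.SimInst
import Pool.Agent.VHC.Enc
import Pool.Agent.VHM.Enc

/-!
# VHF/Main : the reduction, for a skeleton `K` and a computable family `F` of machines (MP_720b7c_al)
-/

set_option autoImplicit false

namespace Pool.Agent.VHF

open Pool.Agent.VHG (tilesOf)
open Pool.Agent.VHM (Enc Fam)

theorem enc_noFolded {l : List (ℕ × ℕ × ℕ × ℕ)} {T V H : Type} {S : VHG.Tiles T V H} (e : Enc l S)
    (h : ¬ ∃ F ex ey, VHG.IsFolded S F ex ey) : ¬ ∃ F ex ey, VHG.IsFolded (tilesOf l) F ex ey := by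
  rintro ⟨F, ex, ey, hF⟩
  refine h ⟨fun i j => e.φ (F i j), ex, ey, ?_, ?_, ?_, ?_⟩
  · intro i j
    exact (e.rt_lt _ _ _ _).1 (hF.h i j)
  · intro i j
    exact (e.up_dn _ _ _ _).1 (hF.v i j)
  · intro i j hx hh
    exact hF.hf i j hx (e.φ.injective hh)
  · intro i j hx hh
    exact hF.vf i j hx (e.φ.injective hh)

/-- hyperbolicity of automatic groups is undecidable, given a skeleton and a family of machines -/
theorem undecidable_of (K : VHS.Skel) (F : Fam) :
    ¬ ∃ f : VHG.PresData →. Bool, Partrec f ∧ VHG.DecidesHyp f := by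
  obtain ⟨G, hG, hE⟩ := VHC.enc_thm K F
  refine VHG.no_algorithm_of (K := fun n => ∀ t, F.alive n t) F.not_comp G hG ?_ ?_ ?_
  · intro n
    obtain ⟨e⟩ := hE n
    exact e.det (VHS.det K _ 0)
  · intro n h
    obtain ⟨e⟩ := hE n
    exact e.patches fun m => VHS.has_patches K (F.mach n) h m
  · intro n h
    obtain ⟨e⟩ := hE n
    exact enc_noFolded e (VHS.no_folded K (F.mach n) h)

end Pool.Agent.VHF
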